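import Pool.Agent.H29.HP.Three
import Pool.Agent.H61.HP.NTwo
import Pool.Agent.H40.HP.CP

namespace Pool.Agent.Results.MP_b1dabd_pr.HyperplaneDensity

open Pool.Agent.H29.FK Pool.Agent.H29.HP MeasureTheory

/-- the finite box of side `n` in the hyperplane `z j = 0` -/
noncomputable def hbox {d : ℕ} (j : Fin d) (n : ℕ) : Finset (Fin d → ℤ) :=
  Fintype.piFinset (fun i => if i = j then ({0} : Finset ℤ) else Finset.Ico (0 : ℤ) n)

/-- two distinct infinite clusters meet the box of the points at sup-distance at most `K` of `x` -/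
def TwoNear {d : ℕ} (K : ℕ) (x : Fin d → ℤ) : Set (Cfg d) :=
  {ω | ∃ u v : Fin d → ℤ, (∀ i, |u i - x i| ≤ K) ∧ (∀ i, |v i - x i| ≤ K) ∧
    (clus ω u).Infinite ∧ (clus ω v).Infinite ∧ clus ω u ≠ clus ω v}

/-- With `p = 0` there is no open edge. -/
theorem zero_case {d : ℕ} {q : ℝ} (hq : 0 < q) {φ : Measure (Cfg d)} (h : IsFK 0 q φ) :
    ∀ᵐ ω ∂φ, ∀ x, ¬ (clus ω x).Infinite := by
  have := h.prob
  have h1 : ∀ᵐ ω ∂φ, ∀ e : Ed d, ω e = false := by
    rw [ae_all_iff]
    intro e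
    rw [ae_iff]
    have h2 := (edge_bounds (le_refl (0 : ℝ)) zero_le_one hq h e MeasurableSet.univ
      (Det.univ _)).2
    have h3 : pmax 0 q = 0 := by unfold pmax; simp
    rw [h3, zero_mul, Set.univ_inter] at h2
    have h4 := (measureReal_eq_zero_iff).1 (le_antisymm h2 measureReal_nonneg)
    have h5 : {ω : Cfg d | ¬ ω e = false} = {ω | ω e = true} := by
      ext ω; simp
    rw [h5]
    exact h4
  filter_upwards [h1] with ω hω x hx
  apply hx
  have h2 : clus ω x ⊆ {x} := by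
    intro y hy
    rcases Relation.ReflTransGen.cases_head hy with h3 | ⟨z, ⟨h4, h5⟩, _⟩
    · exact h3.symm
    · rw [hω _] at h5
      exact absurd h5 (by decide)
  exact (Set.finite_singleton x).subset h2

/-- Let `d ≥ 2`, `p ∈ [0, 1]`, `q > 0`. For all `K` and `η > 0` there is `n₀` such that for every
`n ≥ n₀`, every random-cluster Gibbs measure `φ` on `ℤ^d` with parameters `p`, `q` (translation
invariance is not assumed), every point `x₀` and every coordinate direction `j`, the sum over the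
`n^(d-1)` points `x = x₀ + z`, `z j = 0`, `0 ≤ z i < n` for `i ≠ j`, of the probabilities that two
distinct infinite clusters meet the box of radius `K` around `x` is at most `η * n^(d-1)`. -/
theorem result (d : ℕ) (hd : 2 ≤ d) (p q : ℝ) (hp0 : 0 ≤ p) (hp1 : p ≤ 1) (hq : 0 < q)
    (K : ℕ) (η : ℝ) (hη : 0 < η) :
    ∃ n₀ : ℕ, ∀ n ≥ n₀, ∀ φ : Measure (Cfg d), IsFK p q φ → ∀ (x₀ : Fin d → ℤ) (j : Fin d),
      ∑ z ∈ hbox j n, φ (TwoNear K (x₀ + z)) ≤ ENNReal.ofReal (η * (n : ℝ) ^ (d - 1)) := by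
  rcases hp0.eq_or_lt with h0 | h0
  · subst h0
    refine ⟨0, fun n _ φ hφ x₀ j => ?_⟩
    have h1 : ∀ x, φ (TwoNear K x) = 0 := by
      intro x
      rw [measure_eq_zero_iff_ae_notMem]
      filter_upwards [zero_case hq hφ] with ω hω
      rintro ⟨u, v, _, _, hu, _⟩
      exact hω u hu
    simp [h1]
  · have hε : 0 < pmin p q := by
      unfold pmin
      exact lt_min h0 (div_pos h0 (den_pos hp0 hp1 hq))
    have hex : ∀ j : Fin d, ∃ n₀ : ℕ, ∀ n ≥ n₀, ∀ φ : Measure (Cfg d), IsProbabilityMeasure φ →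
        IT (pmin p q) φ → ∀ x₀ : Fin d → ℤ,
        ∑ z ∈ hb j n, φ (Two K (x₀ + z)) ≤ ENNReal.ofReal (η * (n : ℝ) ^ (d - 1)) := fun j =>
      cp d j (pmin p q) hd hε (fun μ hμ hIT hinv =>
        Pool.Agent.H61.HP.n2 d j (pmin p q) μ hd hε hμ hIT hinv
          (n3 d j (pmin p q) μ hd hε hμ hIT hinv)) K η hη
    choose n₀ hn₀ using hex
    refine ⟨∑ j, n₀ j, fun n hn φ hφ x₀ j => ?_⟩
    have h1 : n₀ j ≤ ∑ j, n₀ j := Finset.single_le_sum (fun _ _ => Nat.zero_le _)
      (Finset.mem_univ j)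
    have := hφ.prob
    refine hn₀ j n (h1.trans hn) φ hφ.prob ?_ x₀
    intro e B hB hD
    have h2 := (edge_bounds hp0 hp1 hq hφ e hB hD).1
    have h3 := ENNReal.ofReal_le_ofReal h2
    rw [ENNReal.ofReal_mul hε.le, ofReal_measureReal, ofReal_measureReal] at h3
    exact h3

end Pool.Agent.Results.MP_b1dabd_pr.HyperplaneDensity
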