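import Pool.Agent.H29.FK.D2

namespace Pool.Agent.Results.MP_b1dabd_pr.UniqueCluster

open Pool.Agent.H29.FK MeasureTheory

/-- Let `φ` be a random-cluster Gibbs measure on `ℤ^d`, `d ≥ 2`, with parameters `p ∈ [0, 1]`,
`q > 0` (translation invariance is not assumed), and let `p₀ ≤ p₁` be the two numbers `p` and
`p / (p + q * (1 - p))`. Suppose that Bernoulli percolation of density `p₀` percolates in some
slab, or that `d = 2` and `p₀ ≥ 1/2`, or that Bernoulli percolation of density `p₁` does not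
percolate in `ℤ^d`, or that `d = 2` and `p₁ ≤ 1/2`. Then there is almost surely at most one
infinite cluster. -/
theorem result (d : ℕ) (hd : 2 ≤ d) (p q : ℝ) (hp0 : 0 ≤ p) (hp1 : p ≤ 1) (hq : 0 < q)
    (φ : Measure (Cfg d)) (hφ : IsFK p q φ)
    (h : (∃ (j : Fin d) (k : ℕ), bern d (min p (p / (p + q * (1 - p))))
            {ω | ∃ x, (slabClus j k ω x).Infinite} ≠ 0) ∨
        (d = 2 ∧ 1 / 2 ≤ min p (p / (p + q * (1 - p)))) ∨
        bern d (max p (p / (p + q * (1 - p)))) {ω | ∃ x, (clus ω x).Infinite} = 0 ∨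
        (d = 2 ∧ max p (p / (p + q * (1 - p))) ≤ 1 / 2)) :
    ∀ᵐ ω ∂φ, ∀ x y, (clus ω x).Infinite → (clus ω y).Infinite → y ∈ clus ω x := by
  rcases h with ⟨j, k, h⟩ | ⟨rfl, h⟩ | h | ⟨rfl, h⟩
  · exact slab_case hp0 hp1 hq hφ hd h
  · exact ring_case hp0 hp1 hq hφ h
  · filter_upwards [sub_case hp0 hp1 hq hφ h] with ω hω x _ hx
    exact absurd hx (hω x)
  · filter_upwards [sub_case hp0 hp1 hq hφ (half_sub (pmax_mem hp0 hp1 hq).1 h)] with ω hω x _ hx
    exact absurd hx (hω x)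

end Pool.Agent.Results.MP_b1dabd_pr.UniqueCluster
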